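import Pool.Agent.ATZ.Stmts1
import Pool.Agent.Helper65_KF.Omc
import Pool.Agent.Helper10_K9.SM2

/-!
# Squad ATZ, row XCH: the numbers `|G| (χ, ψ)_u / χ(1)` and the central character
-/

open scoped BigOperators

noncomputable section

namespace Pool.Agent.PP.TB.H3

open Pool.Agent.Helper51_AWC Pool.Agent.Helper79_WRA Pool.Agent.PP Pool.Agent.PP.KF
open Pool.Agent.PP.K9 Pool.Agent.PP.K9.H97 Pool.Agent.PP.H75 Pool.Agent.PP.T3 Pool.Agent.PP.T2
open Pool.Agent.PP.T5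

attribute [local instance] Ideal.Quotient.field

variable {M : Ideal (integralClosure ℤ ℂ)} [M.IsMaximal]

/-- the central character at the sum of the conjugates of `w` -/
theorem gen {G : Type} [Group G] [Fintype G] {C : Subgroup G} {e : G → FF M} (he : IsBlk e)
    {w : G → ℂ} (hw : ∀ c ∈ C, ∀ g, w (c * g * c⁻¹) = w g) (hR : ∀ g, w g ∈ RM M) :
    (∀ χ ∈ Irr G, (Nat.card G * chv w χ / (Nat.card C * χ 1)) ∈ RM M) ∧
    ∀ χ ∈ IrrE M e, ∀ χ' ∈ IrrE M e,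
      rr M (Nat.card G * chv w χ / (Nat.card C * χ 1)) =
        rr M (Nat.card G * chv w χ' / (Nat.card C * χ' 1)) := by
  classical
  have hz := KF.H65.zet_cl (C := C) hw
  have hzR : ∀ g, KF.H65.zet C w g ∈ RM M := fun g =>
    Subring.sum_mem _ fun q _ => hR _
  have hrcl : IsCl (fun g => rr M (KF.H65.zet C w g)) := by
    intro x y
    change rr M _ = rr M _
    rw [hz]
  refine ⟨fun χ hχ => ?_, fun χ hχ χ' hχ' => ?_⟩
  · have k1 := KF.H65.om_RM (M := M) hz hzR hχ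
    rw [KF.H65.zet_om hχ] at k1
    exact k1.1
  · have k1 := KF.H65.om_RM (M := M) hz hzR hχ.1
    have k2 := KF.H65.om_RM (M := M) hz hzR hχ'.1
    have k3 := H50.char_uniq he (H50.isChar_res hχ.1) (H50.isChar_res hχ'.1) hχ.2 hχ'.2 hrcl
    rw [KF.H65.zet_om hχ.1] at k1
    rw [KF.H65.zet_om hχ'.1] at k2
    exact k1.2.trans (k3.trans k2.2.symm)

theorem reg_cj {ℓ : ℕ} {K : Type} [Group K] (x y : K) : Reg ℓ (y * x * y⁻¹) ↔ Reg ℓ x := by
  unfold Reg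
  rw [← MulAut.conj_apply, MulEquiv.orderOf_eq]

theorem xch : XchStmt := by
  intro ℓ _ M _ hM G _ _ e he u b hb ψ hψ
  classical
  have := Fintype.ofFinite G
  obtain ⟨h1, h2, -⟩ := KF.H25.idm M (Cu u) (fun t : Cu u => b t) hb.idem
  have hcl := h2.1
  obtain ⟨B, hB⟩ : ∃ B : G → ℂ, B = PP.ext0 (Cu u) (eh M (fun t : Cu u => b t)) := ⟨_, rfl⟩
  have hBR : ∀ x, B x ∈ RM M := by
    intro x
    rw [hB]
    unfold PP.ext0
    split_ifs with h
    · exact (h1 _).1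
    · exact Subring.zero_mem _
  have hBc : ∀ c ∈ Cu u, ∀ x, B (c * x * c⁻¹) = B x := by
    intro c hc x
    rw [hB]
    unfold PP.ext0
    by_cases h : x ∈ Cu u
    · have h' : c * x * c⁻¹ ∈ Cu u :=
        (Cu u).mul_mem ((Cu u).mul_mem hc h) ((Cu u).inv_mem hc)
      rw [dif_pos h', dif_pos h]
      exact hcl ⟨x, h⟩ ⟨c, hc⟩
    · have h' : c * x * c⁻¹ ∉ Cu u := by
        intro h'
        apply h
        have : x = c⁻¹ * (c * x * c⁻¹) * c := by group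
        rw [this]
        exact (Cu u).mul_mem ((Cu u).mul_mem ((Cu u).inv_mem hc) h') hc
      rw [dif_neg h', dif_neg h]
  have hgv : ∀ (g : G) (χ : G → ℂ), gv M (Cu u) g b χ = ∑ x, B x * χ (g * x) := by
    intro g χ
    rw [hB, K9.H10.sum_e0 u (eh M (fun t : Cu u => b t)) (fun x => χ (g * x))]
    rfl
  have hcu : ∀ c ∈ Cu u, c * u = u * c := fun c hc =>
    (Subgroup.mem_centralizer_iff.1 hc u (Set.mem_singleton u)).symm
  obtain ⟨k, hk⟩ : ∃ k : G → ℂ, k = fun s => starRingEnd ℂ (gv M (Cu u) (u * s) b ψ) :=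
    ⟨_, rfl⟩
  have hkR : ∀ s, k s ∈ RM M := by
    intro s
    rw [hk]
    change starRingEnd ℂ (gbv (Cu u) (u * s) (eh M (fun t : Cu u => b t)) ψ) ∈ RM M
    rw [K9.H10.gbv_conj u (u * s) _ hψ, finsum_eq_sum_of_fintype]
    exact Subring.sum_mem _ fun c _ =>
      Subring.mul_mem _ (h1 _).1 (RM_of_int (irr_integral hψ _))
  have hkc : ∀ c ∈ Cu u, ∀ s, k (c * s * c⁻¹) = k s := by
    intro c hc s
    rw [hk]
    simp only []
    congr 1
    rw [hgv, hgv, ← Equiv.sum_comp (MulAut.conj c).toEquiv]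
    refine Finset.sum_congr rfl fun x _ => ?_
    change B (c * x * c⁻¹) * ψ (u * (c * s * c⁻¹) * (c * x * c⁻¹)) = _
    rw [hBc c hc]
    congr 1
    have e1 : u * (c * s * c⁻¹) * (c * x * c⁻¹) = c * (u * s * x) * c⁻¹ := by
      have e2 := hcu c hc
      calc u * (c * s * c⁻¹) * (c * x * c⁻¹) = (u * c) * s * x * c⁻¹ := by group
        _ = (c * u) * s * x * c⁻¹ := by rw [e2]
        _ = _ := by group
    rw [e1]
    exact irr_conj hψ _ _
  obtain ⟨P, hP⟩ : ∃ P : G → ℂ, P = fun s => if s ∈ Cu u ∧ Reg ℓ s then k s else 0 := ⟨_, rfl⟩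
  have hPR : ∀ s, P s ∈ RM M := by
    intro s
    rw [hP]
    simp only []
    split_ifs
    · exact hkR s
    · exact Subring.zero_mem _
  have hPc : ∀ c ∈ Cu u, ∀ s, P (c * s * c⁻¹) = P s := by
    intro c hc s
    rw [hP]
    simp only []
    have e1 : (c * s * c⁻¹ ∈ Cu u ∧ Reg ℓ (c * s * c⁻¹)) ↔ (s ∈ Cu u ∧ Reg ℓ s) := by
      rw [reg_cj]
      refine and_congr_left fun _ => ⟨fun h => ?_, fun h => ?_⟩
      · have : s = c⁻¹ * (c * s * c⁻¹) * c := by group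
        rw [this]
        exact (Cu u).mul_mem ((Cu u).mul_mem ((Cu u).inv_mem hc) h) hc
      · exact (Cu u).mul_mem ((Cu u).mul_mem hc h) ((Cu u).inv_mem hc)
    by_cases h : s ∈ Cu u ∧ Reg ℓ s
    · rw [if_pos h, if_pos (e1.2 h), hkc c hc]
    · rw [if_neg h, if_neg fun h' => h (e1.1 h')]
  obtain ⟨w, hw⟩ : ∃ w : G → ℂ, w = fun x => ∑ s, P s * B (s⁻¹ * (u⁻¹ * x)) := ⟨_, rfl⟩
  have hwR : ∀ x, w x ∈ RM M := by
    intro x
    rw [hw]
    exact Subring.sum_mem _ fun s _ => Subring.mul_mem _ (hPR s) (hBR _)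
  have hwc : ∀ c ∈ Cu u, ∀ x, w (c * x * c⁻¹) = w x := by
    intro c hc x
    rw [hw]
    simp only []
    rw [← Equiv.sum_comp (MulAut.conj c).toEquiv]
    refine Finset.sum_congr rfl fun s _ => ?_
    change P (c * s * c⁻¹) * B ((c * s * c⁻¹)⁻¹ * (u⁻¹ * (c * x * c⁻¹))) = _
    rw [hPc c hc]
    congr 1
    have e1 : (c * s * c⁻¹)⁻¹ * (u⁻¹ * (c * x * c⁻¹)) = c * (s⁻¹ * (u⁻¹ * x)) * c⁻¹ := by
      have e2 : u⁻¹ * c = c * u⁻¹ := by
        rw [inv_mul_eq_iff_eq_mul, ← mul_assoc, ← hcu c hc, mul_inv_cancel_right]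
      calc (c * s * c⁻¹)⁻¹ * (u⁻¹ * (c * x * c⁻¹)) =
          c * s⁻¹ * c⁻¹ * (u⁻¹ * c) * x * c⁻¹ := by group
        _ = c * s⁻¹ * c⁻¹ * (c * u⁻¹) * x * c⁻¹ := by rw [e2]
        _ = _ := by group
    rw [e1, hBc c hc]
  have hchv : ∀ χ : G → ℂ, chv w χ = Nat.card (Cu u) * mm M ℓ (Cu u) u b χ ψ := by
    intro χ
    unfold chv mm
    have hC : (Nat.card (Cu u) : ℂ) ≠ 0 := Nat.cast_ne_zero.2 Nat.card_pos.ne'
    rw [mul_inv_cancel_left₀ hC, finsum_eq_sum_of_fintype]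
    have e1 : (∑ᶠ (s : G) (_ : s ∈ Cu u ∧ Reg ℓ s),
        gv M (Cu u) (u * s) b χ * starRingEnd ℂ (gv M (Cu u) (u * s) b ψ)) =
        ∑ s, P s * gv M (Cu u) (u * s) b χ := by
      refine (finsum_mem_eq_finite_toFinset_sum
        (fun s => gv M (Cu u) (u * s) b χ * starRingEnd ℂ (gv M (Cu u) (u * s) b ψ))
        (s := {s : G | s ∈ Cu u ∧ Reg ℓ s}) (Set.toFinite _)).trans ?_
      have e2 : (Set.toFinite {s : G | s ∈ Cu u ∧ Reg ℓ s}).toFinset =
          Finset.univ.filter fun s : G => s ∈ Cu u ∧ Reg ℓ s := by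
        ext s
        simp
      rw [e2, Finset.sum_filter]
      refine Finset.sum_congr rfl fun s _ => ?_
      rw [hP, hk]
      simp only []
      split_ifs
      · ring
      · ring
    rw [e1, hw]
    simp only []
    simp_rw [Finset.sum_mul]
    rw [Finset.sum_comm]
    refine Finset.sum_congr rfl fun s _ => ?_
    rw [hgv, Finset.mul_sum, ← Equiv.sum_comp (Equiv.mulLeft (u * s))]
    refine Finset.sum_congr rfl fun x _ => ?_
    rw [Equiv.coe_mulLeft]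
    have e2 : s⁻¹ * (u⁻¹ * (u * s * x)) = x := by group
    rw [e2]
    ring
  have hG := gen (C := Cu u) he hwc hwR
  have hq : ∀ χ : G → ℂ, (Nat.card G : ℂ) * chv w χ / (Nat.card (Cu u) * χ 1) =
      (Nat.card G : ℂ) * mm M ℓ (Cu u) u b χ ψ / χ 1 := by
    intro χ
    have hC : (Nat.card (Cu u) : ℂ) ≠ 0 := Nat.cast_ne_zero.2 Nat.card_pos.ne'
    rw [hchv, mul_left_comm, mul_div_mul_left _ _ hC]
  refine ⟨fun χ hχ => ?_, fun χ hχ χ' hχ' => ?_⟩
  · have := hG.1 χ hχ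
    rwa [hq] at this
  · have := hG.2 χ hχ χ' hχ'
    rwa [hq, hq] at this

end Pool.Agent.PP.TB.H3
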